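import Pool.Graph.R_pool_sql_team_seeded_3997aac3.Q281.SM.Comb
import Pool.Graph.R_pool_sql_team_seeded_3997aac3.Q281.SM.Defs

/-!
# The monoid attached to a subgroup and a monoid of compressing elements

Adapted from the library modules `Q281/SM/Defs`, `Q281/SM/Units` (there the monoid of all
compressing elements is used, and groups live in `Type`).
-/

universe u

namespace KS82.SM

open Q281.SM (IsSofic JOne)

section Construction

variable {G : Type u} [Group G] (H : Subgroup G)

/-- The monoid of the elements `p` with `p H p⁻¹ ⊆ H`. -/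
def PH : Submonoid G where
  carrier := {g | ∀ h ∈ H, g * h * g⁻¹ ∈ H}
  one_mem' := by intro h hh; simpa using hh
  mul_mem' := by
    intro a b ha hb h hh
    have := ha _ (hb h hh)
    simpa [mul_assoc] using this

/-- The right cosets `Hx`. -/
abbrev Cos : Type u := Quotient (QuotientGroup.rightRel H)

/-- `Hx ↦ Hxg` -/
def cr (c : Cos H) (g : G) : Cos H :=
  Quotient.map' (s₁ := QuotientGroup.rightRel H) (s₂ := QuotientGroup.rightRel H)
    (fun x => x * g) (by
      intro a b h
      rw [QuotientGroup.rightRel_apply] at h ⊢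
      simpa [mul_assoc] using h) c

/-- `Hx ↦ Hpx` -/
def cl (p : PH H) (c : Cos H) : Cos H :=
  Quotient.map' (s₁ := QuotientGroup.rightRel H) (s₂ := QuotientGroup.rightRel H)
    (fun x => (p : G) * x) (by
      intro a b h
      rw [QuotientGroup.rightRel_apply] at h ⊢
      have := p.2 _ h
      simpa [mul_assoc] using this) c

/-- the coset of an element -/
def mkc (x : G) : Cos H := Quotient.mk'' x

variable (P : Submonoid (PH H))

/-- The set `G ∪ H\G ∪ P ∪ {0}`. -/
inductive Car : Type u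
  | g (x : G) : Car
  | s (c : Cos H) : Car
  | t (p : P) : Car
  | z : Car

variable {H} {P}

lemma cr_mkc (x g : G) : cr H (mkc H x) g = mkc H (x * g) := rfl

lemma cl_mkc (p : PH H) (x : G) : cl H p (mkc H x) = mkc H ((p : G) * x) := rfl

lemma mkc_surj (c : Cos H) : ∃ x, mkc H x = c := Quotient.exists_rep c

lemma mkc_eq {x y : G} : mkc H x = mkc H y ↔ y * x⁻¹ ∈ H := by
  rw [mkc, mkc, Quotient.eq'', QuotientGroup.rightRel_apply]

lemma cr_one (c : Cos H) : cr H c 1 = c := by
  obtain ⟨x, rfl⟩ := mkc_surj c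
  rw [cr_mkc, mul_one]

lemma cr_mul (c : Cos H) (a b : G) : cr H (cr H c a) b = cr H c (a * b) := by
  obtain ⟨x, rfl⟩ := mkc_surj c
  rw [cr_mkc, cr_mkc, cr_mkc, mul_assoc]

lemma cl_one (c : Cos H) : cl H 1 c = c := by
  obtain ⟨x, rfl⟩ := mkc_surj c
  rw [cl_mkc]; simp

lemma cl_mul (p q : PH H) (c : Cos H) : cl H p (cl H q c) = cl H (p * q) c := by
  obtain ⟨x, rfl⟩ := mkc_surj c
  rw [cl_mkc, cl_mkc, cl_mkc]; simp [mul_assoc]

lemma cl_cr (p : PH H) (c : Cos H) (a : G) : cl H p (cr H c a) = cr H (cl H p c) a := by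
  obtain ⟨x, rfl⟩ := mkc_surj c
  rw [cr_mkc, cl_mkc, cl_mkc, cr_mkc, mul_assoc]

/-- the multiplication of the monoid -/
def nmul : Car H P → Car H P → Car H P
  | .g a, .g b => .g (a * b)
  | .g _, .s c => .s c
  | .g _, .t p => .t p
  | .g _, .z => .z
  | .s c, .g a => .s (cr H c a)
  | .s _, .s _ => .z
  | .s _, .t _ => .z
  | .s _, .z => .z
  | .t p, .g _ => .t p
  | .t p, .s c => .s (cl H p c)
  | .t p, .t q => .t (p * q)
  | .t _, .z => .z
  | .z, _ => .z

variable (H) (P)

/-- The monoid `G ∪ H\G ∪ P ∪ {0}` in which `x (Hy) = Hy`, `x p = p`, `(Hy) x = Hyx`,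
`p x = p`, `p (Hy) = Hpy` (`x, y ∈ G`, `p ∈ P`), `P` multiplies as in `G` and the other
products are `0`. -/
def NMon : Type u := Car H P

instance : Monoid (NMon H P) where
  mul := nmul
  one := Car.g 1
  mul_assoc := by
    intro a b c
    change nmul (nmul a b) c = nmul a (nmul b c)
    cases a <;> cases b <;> cases c <;>
      simp [nmul, mul_assoc, cr_mul, cl_mul, cl_cr]
  one_mul := by
    intro a
    change nmul (Car.g 1) a = a
    cases a <;> simp [nmul]
  mul_one := by
    intro a
    change nmul a (Car.g 1) = a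
    cases a <;> simp [nmul, cr_one]

end Construction

section N

variable {G : Type u} [Group G] {H : Subgroup G} {P : Submonoid (PH H)}

/-- elements of the monoid -/
def Ng (a : G) : NMon H P := Car.g a
/-- elements of the monoid -/
def Ns (x : G) : NMon H P := Car.s (mkc H x)
/-- elements of the monoid -/
def Nt (p : P) : NMon H P := Car.t p
/-- elements of the monoid -/
def Nz : NMon H P := Car.z

lemma Ng_one : (Ng 1 : NMon H P) = 1 := rfl
lemma Ng_mul (a b : G) : (Ng a * Ng b : NMon H P) = Ng (a * b) := rfl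
lemma Ng_Ns (a x : G) : (Ng a * Ns x : NMon H P) = Ns x := rfl
lemma Ns_Ng (x a : G) : (Ns x * Ng a : NMon H P) = Ns (x * a) := rfl
lemma Nt_Ns (p : P) (x : G) : (Nt p * Ns x : NMon H P) = Ns ((p : G) * x) := rfl
lemma Nt_mul (p q : P) : (Nt p * Nt q : NMon H P) = Nt (p * q) := rfl
lemma Ns_mul (x y : G) : (Ns x * Ns y : NMon H P) = Nz := rfl
lemma Ns_inj {x y : G} : (Ns x : NMon H P) = Ns y ↔ y * x⁻¹ ∈ H := by
  rw [← mkc_eq]
  constructor
  · intro h; exact Car.s.inj h
  · intro h; exact congrArg Car.s h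

/-- the group element -/
def gval : Car H P → G
  | .g a => a
  | .s _ => 1
  | .t _ => 1
  | .z => 1

variable (H) (P)

/-- the units of the monoid -/
def nUnits : G ≃* (NMon H P)ˣ where
  toFun a := ⟨Car.g a, Car.g a⁻¹, by
    change nmul (Car.g a) (Car.g a⁻¹) = Car.g 1
    simp [nmul], by
    change nmul (Car.g a⁻¹) (Car.g a) = Car.g 1
    simp [nmul]⟩
  invFun u := gval (u : NMon H P)
  left_inv a := rfl
  right_inv u := by
    apply Units.ext
    have h : nmul (u : NMon H P) ((u⁻¹ : (NMon H P)ˣ) : NMon H P) = Car.g 1 := u.mul_inv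
    change (Car.g (gval (u : NMon H P)) : Car H P) = (u : NMon H P)
    generalize (u : NMon H P) = x at h ⊢
    generalize ((u⁻¹ : (NMon H P)ˣ) : NMon H P) = y at h
    cases x <;> cases y <;> first | rfl | (exfalso; simp [nmul] at h)
  map_mul' a b := by
    apply Units.ext
    rfl

variable {H} {P}

lemma nIsUnit {m : NMon H P} : IsUnit m ↔ ∃ a : G, m = Car.g a := by
  constructor
  · rintro ⟨u, rfl⟩
    exact ⟨(nUnits H P).symm u, congrArg Units.val ((nUnits H P).apply_symm_apply u).symm⟩
  · rintro ⟨a, rfl⟩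
    exact ⟨nUnits H P a, rfl⟩

lemma nJOne : JOne (NMon H P) = {m | IsUnit m} := by
  ext m
  constructor
  · intro h
    obtain ⟨a, b, hab⟩ := h 1
    refine nIsUnit.2 ?_
    have h1 : nmul (nmul a m) b = Car.g 1 := hab
    cases a <;> cases m <;> cases b <;> first | exact ⟨_, rfl⟩ | (exfalso; simp [nmul] at h1)
  · rintro ⟨u, rfl⟩
    intro x
    exact ⟨x * ((u⁻¹ : (NMon H P)ˣ) : NMon H P), 1, by simp⟩

/-- The monoid is generated by its units, `H`, `1 ∈ P` and generators of `P`. -/
lemma closure_eq (T : Set P) (hT : Submonoid.closure T = ⊤) :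
    Submonoid.closure ({m : NMon H P | IsUnit m} ∪ (insert (Ns 1) (insert (Nt 1) (Nt '' T)))) = ⊤ := by
  set C := Submonoid.closure ({m : NMon H P | IsUnit m} ∪ (insert (Ns 1) (insert (Nt 1) (Nt '' T))))
    with hC
  have h1 : ∀ a : G, Ng a ∈ C := fun a => Submonoid.subset_closure (Or.inl (nIsUnit.2 ⟨a, rfl⟩))
  have h2 : (Ns 1 : NMon H P) ∈ C := Submonoid.subset_closure (Or.inr (Set.mem_insert _ _))
  have h3 : ∀ x : G, (Ns x : NMon H P) ∈ C := fun x => by
    have := mul_mem h2 (h1 x)
    rwa [Ns_Ng, one_mul] at this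
  have h4 : ∀ p : P, (Nt p : NMon H P) ∈ C := by
    intro p
    have hp : p ∈ Submonoid.closure T := by rw [hT]; trivial
    induction hp using Submonoid.closure_induction with
    | mem x hx =>
      exact Submonoid.subset_closure (Or.inr (Or.inr (Or.inr ⟨x, hx, rfl⟩)))
    | one => exact Submonoid.subset_closure (Or.inr (Or.inr (Or.inl rfl)))
    | mul x y _ _ hx hy => rw [← Nt_mul]; exact mul_mem hx hy
  have h5 : (Nz : NMon H P) ∈ C := by rw [← Ns_mul 1 1]; exact mul_mem h2 h2
  rw [eq_top_iff]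
  rintro m -
  change (m : Car H P) ∈ _
  cases m with
  | g a => exact h1 a
  | s c => obtain ⟨x, rfl⟩ := mkc_surj c; exact h3 x
  | t p => exact h4 p
  | z => exact h5

end N

end KS82.SM
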