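import Pool.Agent.KS6_82.SM.A
import Pool.Graph.R_pool_sql_team_seeded_3997aac3.Q281.SM.NonSofic

/-!
# The monoid of a subgroup that is compressed is not sofic

Adapted from the library module `Q281/SM/NonSofic`.
-/

universe u

namespace KS82.SM

open Finset
open Q281.SM (IsSofic InjOff wt mass order arith card_not_le)

variable {G : Type u} [Group G] {H : Subgroup G} {P : Submonoid (PH H)}

/-- the six elements -/
def six (c d h : G) : Fin 6 → G :=
  ![c * h⁻¹, c⁻¹ * h⁻¹, c * c * h⁻¹, (c * c)⁻¹ * h⁻¹, h * d⁻¹, h * d]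

/-- **Main theorem**: the monoid `NMon H P` is not sofic if `H` contains infinitely many elements
that are distinct modulo `p H p⁻¹` for six elements `p` of `P_H` of a certain form. -/
theorem not_sofic (c d h : G) (γ : ℕ → G) (hγ : ∀ i, γ i ∈ H)
    (hp : ∀ k, six c d h k ∈ PH H)
    (hP : ∀ k, (⟨six c d h k, hp k⟩ : PH H) ∈ P)
    (hne : ∀ k i j, i ≠ j → (six c d h k)⁻¹ * (γ i * (γ j)⁻¹) * six c d h k ∉ H) :
    ¬ IsSofic (NMon H P) := by
  classical
  intro hs
  set p := six c d h with hpdef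
  set R : Finset G := ({h, c, c * c, d, h * c, h * (c * c)} ∪ univ.image p) ∪
    ((range 88).image γ ∪ (univ ×ˢ range 88).image (fun ki => (p ki.1)⁻¹ * γ ki.2 * p ki.1))
    with hR
  set KG : Finset G := R ∪ R.image (fun a => a⁻¹) with hKG
  set K : Finset (NMon H P) := (KG.image Ng ∪ insert (Ns 1) (KG.image Ns)) ∪
    univ.image (fun k => Nt ⟨⟨p k, hp k⟩, hP k⟩) with hK
  have hKinv : ∀ a ∈ KG, a⁻¹ ∈ KG := by
    intro a ha
    rw [hKG, mem_union, mem_image] at ha ⊢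
    rcases ha with ha | ⟨b, hb, rfl⟩
    · exact Or.inr ⟨a, ha, rfl⟩
    · left; rwa [inv_inv]
  have hKg : ∀ a ∈ KG, Ng a ∈ K := by
    intro a ha
    rw [hK, mem_union, mem_union]
    exact Or.inl (Or.inl (mem_image_of_mem _ ha))
  have hKs : ∀ a ∈ KG, Ns a ∈ K := by
    intro a ha
    rw [hK, mem_union, mem_union]
    exact Or.inl (Or.inr (mem_insert_of_mem (mem_image_of_mem _ ha)))
  have hKs1 : Ns 1 ∈ K := by
    rw [hK, mem_union, mem_union]
    exact Or.inl (Or.inr (mem_insert_self _ _))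
  have hKt : ∀ k, Nt ⟨⟨p k, hp k⟩, hP k⟩ ∈ K := by
    intro k
    rw [hK, mem_union]
    exact Or.inr (mem_image_of_mem _ (mem_univ k))
  have hRK : ∀ a ∈ R, a ∈ KG := fun a ha => by rw [hKG, mem_union]; exact Or.inl ha
  have mh : h ∈ KG := hRK _ (by simp [hR])
  have mc : c ∈ KG := hRK _ (by simp [hR])
  have mcc : c * c ∈ KG := hRK _ (by simp [hR])
  have md : d ∈ KG := hRK _ (by simp [hR])
  have mhc : h * c ∈ KG := hRK _ (by simp [hR])
  have mhcc : h * (c * c) ∈ KG := hRK _ (by simp [hR])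
  have mp : ∀ k, p k ∈ KG := fun k => hRK _ (by
    rw [hR, mem_union, mem_union]
    exact Or.inl (Or.inr (mem_image_of_mem _ (mem_univ k))))
  have mγ : ∀ i : Fin 88, γ i ∈ KG := fun i => hRK _ (by
    rw [hR, mem_union, mem_union, mem_union]
    exact Or.inr (Or.inl (mem_image_of_mem _ (mem_range.2 i.2))))
  have mg : ∀ k (i : Fin 88), (p k)⁻¹ * γ i * p k ∈ KG := fun k i => hRK _ (by
    rw [hR, mem_union, mem_union, mem_union]
    exact Or.inr (Or.inr (mem_image.2 ⟨(k, (i : ℕ)), by simp, rfl⟩)))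
  set κ : ℝ := (K.card : ℝ) ^ 2 with hκ
  have hκ0 : 0 ≤ κ := by positivity
  obtain ⟨X, iF, iN, f, hf⟩ := hs K (1 / (40000 * (κ + 1))) (by positivity)
  have := Fintype.ofFinite X
  set ε : ℝ := 1 / (40000 * (κ + 1)) with hε
  set n := Fintype.card X with hn
  have hn0 : 0 < n := Fintype.card_pos
  -- the bad set
  set B : Finset X := (K ×ˢ K).biUnion (fun st =>
    univ.filter (fun x => ¬ f st.1 (f st.2 x) = f (st.1 * st.2) x) ∪
    univ.filter (fun x => ¬ (st.1 ≠ st.2 → f st.1 x ≠ f st.2 x))) with hB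
  have hBcard : (B.card : ℝ) ≤ κ * (2 * ε * n) := by
    have h1 : B.card ≤ ∑ st ∈ K ×ˢ K,
        (univ.filter (fun x => ¬ f st.1 (f st.2 x) = f (st.1 * st.2) x) ∪
        univ.filter (fun x => ¬ (st.1 ≠ st.2 → f st.1 x ≠ f st.2 x))).card := card_biUnion_le
    have h2 : ∀ st ∈ K ×ˢ K,
        (((univ.filter (fun x => ¬ f st.1 (f st.2 x) = f (st.1 * st.2) x) ∪
        univ.filter (fun x => ¬ (st.1 ≠ st.2 → f st.1 x ≠ f st.2 x))).card : ℕ) : ℝ) ≤
          2 * ε * n := by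
      intro st hst
      rw [mem_product] at hst
      have a1 := card_not_le (hf.mul st.1 hst.1 st.2 hst.2)
      have a2 : ((univ.filter (fun x => ¬ (st.1 ≠ st.2 → f st.1 x ≠ f st.2 x))).card : ℝ) ≤
          ε * n := by
        by_cases he : st.1 = st.2
        · have : (univ.filter (fun x => ¬ (st.1 ≠ st.2 → f st.1 x ≠ f st.2 x))) = ∅ := by
            ext x; simp [he]
          rw [this]
          simp only [card_empty, Nat.cast_zero]
          positivity
        · have := card_not_le (hf.ne st.1 hst.1 st.2 hst.2 he)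
          have e : (univ.filter (fun x => ¬ (st.1 ≠ st.2 → f st.1 x ≠ f st.2 x))) =
              univ.filter (fun x => ¬ (f st.1 x ≠ f st.2 x)) := by
            ext x; simp [he]
          rw [e]; exact this
      have a3 : (((univ.filter (fun x => ¬ f st.1 (f st.2 x) = f (st.1 * st.2) x) ∪
        univ.filter (fun x => ¬ (st.1 ≠ st.2 → f st.1 x ≠ f st.2 x))).card : ℕ) : ℝ) ≤
        ((univ.filter (fun x => ¬ f st.1 (f st.2 x) = f (st.1 * st.2) x)).card : ℝ) +
        ((univ.filter (fun x => ¬ (st.1 ≠ st.2 → f st.1 x ≠ f st.2 x))).card : ℝ) := by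
        exact_mod_cast card_union_le _ _
      linarith
    have h3 : (B.card : ℝ) ≤ ∑ st ∈ K ×ˢ K,
        (((univ.filter (fun x => ¬ f st.1 (f st.2 x) = f (st.1 * st.2) x) ∪
        univ.filter (fun x => ¬ (st.1 ≠ st.2 → f st.1 x ≠ f st.2 x))).card : ℕ) : ℝ) := by
      exact_mod_cast h1
    refine (h3.trans (sum_le_sum h2)).trans (le_of_eq ?_)
    rw [sum_const, card_product, nsmul_eq_mul, hκ]
    push_cast
    ring
  have hBsmall : (20000 : ℝ) * B.card < n := by
    have h1 : (20000 : ℝ) * B.card ≤ (κ / (κ + 1)) * n := by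
      have : (20000 : ℝ) * (κ * (2 * ε * n)) = (κ / (κ + 1)) * n := by
        rw [hε]; field_simp; ring
      rw [← this]
      linarith
    have h2 : κ / (κ + 1) < 1 := by
      rw [div_lt_one (by linarith)]; linarith
    have h3 : (0 : ℝ) < n := by exact_mod_cast hn0
    calc (20000 : ℝ) * B.card ≤ (κ / (κ + 1)) * n := h1
      _ < 1 * n := mul_lt_mul_of_pos_right h2 h3
      _ = n := one_mul _
  have hmul : ∀ x ∉ B, ∀ s ∈ K, ∀ t ∈ K, f s (f t x) = f (s * t) x := by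
    intro x hx s hs t ht
    by_contra hc
    apply hx
    rw [hB, mem_biUnion]
    exact ⟨(s, t), mem_product.2 ⟨hs, ht⟩, by simp [hc]⟩
  have hneq : ∀ x ∉ B, ∀ s ∈ K, ∀ t ∈ K, s ≠ t → f s x ≠ f t x := by
    intro x hx s hs t ht hst hc
    apply hx
    rw [hB, mem_biUnion]
    exact ⟨(s, t), mem_product.2 ⟨hs, ht⟩, by simp [hc, hst]⟩
  have hgg : ∀ x ∉ B, ∀ a ∈ KG, ∀ b ∈ KG, f (Ng a) (f (Ng b) x) = f (Ng (a * b)) x := by
    intro x hx a ha b hb
    rw [hmul x hx _ (hKg a ha) _ (hKg b hb), Ng_mul]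
  have h1' : ∀ x, f (Ng 1) x = x := fun x => by rw [Ng_one]; exact hf.one x
  have hinj : ∀ a ∈ KG, InjOff B (f (Ng a)) := by
    intro a ha x y hx hy hxy
    have e1 := hgg x hx a⁻¹ (hKinv a ha) a ha
    have e2 := hgg y hy a⁻¹ (hKinv a ha) a ha
    rw [inv_mul_cancel, h1'] at e1 e2
    rw [← e1, hxy, e2]
  -- application of the mass lemma
  have hmass : ∀ k, 88 * (univ.filter (fun y => wt (f (Ns 1)) (f (Ng (p k)) y) ≤
      wt (f (Ns 1)) y)).card ≤ 2 * n + (4 * 88 + 5 * 88 ^ 2) * B.card := by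
    intro k
    apply mass (m := 88) (f (Ns 1)) (f (Ng (p k))) (f (Nt ⟨⟨p k, hp k⟩, hP k⟩)) B
      (fun i => f (Ng ((p k)⁻¹ * γ i * p k))) (fun i => f (Ng ((p k)⁻¹ * γ i * p k)⁻¹))
    · intro y hy
      rw [hmul y hy _ hKs1 _ (hKg _ (mp k)), hmul y hy _ (hKt k) _ hKs1, Ns_Ng, Nt_Ns,
        one_mul, mul_one]
    · exact hinj _ (mp k)
    · intro i; exact hinj _ (mg k i)
    · intro i y hy
      have := hgg y hy _ (mg k i) _ (hKinv _ (mg k i))
      rw [mul_inv_cancel, h1'] at this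
      exact this
    · intro x hx hφ i
      have e1 := hgg x hx _ (mp k) _ (mg k i)
      have e2 := hgg x hx _ (mγ i) _ (mp k)
      have e3 : p k * ((p k)⁻¹ * γ i * p k) = γ i * p k := by group
      rw [e3, ← e2] at e1
      rw [e1, hmul _ hφ _ hKs1 _ (hKg _ (mγ i)), Ns_Ng, one_mul]
      have e4 : (Ns (γ i) : NMon H P) = Ns 1 := by
        rw [Ns_inj, one_mul]
        exact H.inv_mem (hγ i)
      rw [e4]
    · intro x hx i j hij
      change f (Ns 1) (f (Ng ((p k)⁻¹ * γ i * p k)) x) ≠ f (Ns 1) (f (Ng ((p k)⁻¹ * γ j * p k)) x)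
      rw [hmul x hx _ hKs1 _ (hKg _ (mg k i)), hmul x hx _ hKs1 _ (hKg _ (mg k j)), Ns_Ng, Ns_Ng,
        one_mul, one_mul]
      apply hneq x hx _ (hKs _ (mg k i)) _ (hKs _ (mg k j))
      rw [Ne, Ns_inj]
      have e5 : (p k)⁻¹ * γ j * p k * ((p k)⁻¹ * γ i * p k)⁻¹ =
          (p k)⁻¹ * (γ j * (γ i)⁻¹) * p k := by group
      rw [e5]
      exact hne k j i (fun h => hij (Fin.ext h.symm))
  set z := (2 * n + (4 * 88 + 5 * 88 ^ 2) * B.card) / 88 with hz
  have hZ : ∀ k, (univ.filter (fun y => wt (f (Ns 1)) (f (Ng (p k)) y) ≤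
      wt (f (Ns 1)) y)).card ≤ z := by
    intro k
    rw [hz, Nat.le_div_iff_mul_le (by norm_num), mul_comm]
    exact hmass k
  have hord := order (wt (f (Ns 1))) B z (f (Ng h)) (f (Ng c)) (f (Ng (c * c))) (f (Ng d))
    (f (Ng (h * c))) (f (Ng (h * (c * c)))) (f (Ng (p 0))) (f (Ng (p 1))) (f (Ng (p 2)))
    (f (Ng (p 3))) (f (Ng (p 4))) (f (Ng (p 5)))
    (hinj _ mh) (hinj _ mc) (hinj _ mcc) (hinj _ md) (hinj _ mhc) (hinj _ mhcc)
    (fun b hb => (hgg b hb _ mh _ mc).symm) (fun b hb => (hgg b hb _ mh _ mcc).symm)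
    (fun b hb => (hgg b hb _ mc _ mc).symm)
    (fun b hb => by
      rw [hgg b hb _ (mp 0) _ mh]
      congr 2
      simp [hpdef, six])
    (fun b hb => by
      rw [hgg b hb _ (mp 1) _ mhc]
      have : p 1 * (h * c) = 1 := by simp [hpdef, six]
      rw [this, h1'])
    (fun b hb => by
      rw [hgg b hb _ (mp 2) _ mh]
      congr 2
      simp [hpdef, six])
    (fun b hb => by
      rw [hgg b hb _ (mp 3) _ mhcc]
      have : p 3 * (h * (c * c)) = 1 := by simp [hpdef, six]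
      rw [this, h1'])
    (fun b hb => by
      rw [hgg b hb _ (mp 4) _ md]
      congr 2
      simp [hpdef, six])
    (fun b hb => by
      rw [hgg b hb _ mh _ md]
      congr 2)
    (hZ 0) (hZ 1) (hZ 2) (hZ 3) (hZ 4) (hZ 5)
  rw [← hn] at hord
  have hz88 : 88 * z ≤ 2 * n + (4 * 88 + 5 * 88 ^ 2) * B.card := Nat.mul_div_le _ _
  exact arith hBsmall hord hz88

end KS82.SM
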