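import Pool.Agent.KS6_82.SM.B
import Pool.Graph.R_pool_sql_team_seeded_3997aac3.Q281.SM.Example

/-!
# Every group with a nonabelian free subgroup
-/

universe u

namespace KS82.SM

open Finset
open Q281.SM (IsSofic Lamp wk lamp HX F3 gc gd gh X0 card_all exists_injOn)

/-! ### The free group of rank two contains a free group of infinite rank -/

/-- the shift -/
def shE : Equiv.Perm (FreeGroup ℕ × ℤ) where
  toFun x := (x.1, x.2 + 1)
  invFun x := (x.1, x.2 - 1)
  left_inv x := by simp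
  right_inv x := by simp

/-- the multiplication by the `i`-th generator on the `i`-th copy -/
def muE : Equiv.Perm (FreeGroup ℕ × ℤ) where
  toFun x := (FreeGroup.of x.2.natAbs * x.1, x.2)
  invFun x := ((FreeGroup.of x.2.natAbs)⁻¹ * x.1, x.2)
  left_inv x := by simp
  right_inv x := by simp

/-- the action -/
def thE : FreeGroup (Fin 2) →* Equiv.Perm (FreeGroup ℕ × ℤ) := FreeGroup.lift ![shE, muE]

/-- the embedding -/
def emb : FreeGroup ℕ →* FreeGroup (Fin 2) :=
  FreeGroup.lift (fun n => (FreeGroup.of 0 ^ n)⁻¹ * FreeGroup.of 1 * FreeGroup.of 0 ^ n)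

lemma shE_pow (n : ℕ) (x : FreeGroup ℕ) (i : ℤ) : (shE ^ n) (x, i) = (x, i + n) := by
  induction n generalizing i with
  | zero => simp
  | succ n ih =>
    rw [pow_succ, Equiv.Perm.mul_apply]
    change (shE ^ n) (x, i + 1) = _
    rw [ih]
    push_cast
    ring_nf

lemma th_of (n : ℕ) (x : FreeGroup ℕ) :
    thE (emb (FreeGroup.of n)) (x, 0) = (FreeGroup.of n * x, 0) := by
  have e : thE (emb (FreeGroup.of n)) = (shE ^ n)⁻¹ * muE * shE ^ n := by
    simp [thE, emb]
  rw [e, Equiv.Perm.mul_apply, Equiv.Perm.mul_apply, shE_pow, Equiv.Perm.inv_eq_iff_eq, shE_pow]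
  simp [muE]

lemma th_emb (w x : FreeGroup ℕ) : thE (emb w) (x, 0) = (w * x, 0) := by
  induction w using FreeGroup.induction_on generalizing x with
  | C1 => simp
  | of n => exact th_of n x
  | inv_of n _ =>
    rw [map_inv, map_inv, Equiv.Perm.inv_eq_iff_eq]
    have := th_of n ((FreeGroup.of n)⁻¹ * x)
    rw [mul_inv_cancel_left] at this
    exact this.symm
  | mul v w hv hw =>
    rw [map_mul, map_mul, Equiv.Perm.mul_apply, hw, hv, mul_assoc]

lemma emb_injective : Function.Injective emb := by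
  rw [injective_iff_map_eq_one]
  intro w hw
  have := th_emb w 1
  rw [hw, map_one] at this
  have h2 := congrArg Prod.fst this
  simpa using h2.symm

/-! ### The subgroup and the six elements -/

/-- the map to the lamplighter group -/
def ph : FreeGroup ℕ →* Lamp F3 :=
  FreeGroup.lift (fun n => if n = 0 then wk gc else if n = 1 then wk gd else if n = 2 then wk gh
    else lamp 1)

lemma ph0 : ph (FreeGroup.of 0) = wk gc := by simp [ph]
lemma ph1 : ph (FreeGroup.of 1) = wk gd := by simp [ph]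
lemma ph2 : ph (FreeGroup.of 2) = wk gh := by simp [ph]
lemma ph3 : ph (FreeGroup.of 3) = lamp 1 := by simp [ph]

/-- six elements of the free group -/
def sx (k : Fin 6) : FreeGroup ℕ :=
  Q281.SM.six (FreeGroup.of 0) (FreeGroup.of 1) (FreeGroup.of 2) k

lemma ph_sx (k : Fin 6) : ph (sx k) = wk (Q281.SM.six gc gd gh k) := by
  fin_cases k <;> simp [sx, Q281.SM.six, ph0, ph1, ph2, map_mul, map_inv]

/-- lamps -/
def ga (i : ℕ) : FreeGroup ℕ := FreeGroup.of 0 ^ i * FreeGroup.of 3 * (FreeGroup.of 0 ^ i)⁻¹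

lemma wk_lamp (x y : F3) : wk x * lamp y * (wk x)⁻¹ = lamp (x * y) := by
  apply Lamp.ext
  · rw [Q281.SM.wk_conj_w _ _ rfl]
    simp [lamp]
  · simp [lamp]

lemma ph_ga (i : ℕ) : ph (ga i) = lamp (gc ^ i) := by
  rw [ga, map_mul, map_mul, map_inv, map_pow, ph0, ph3, ← map_pow, wk_lamp, mul_one]

variable {G : Type u} [Group G]

/-- The subgroup of `G`. -/
def HH (J : FreeGroup ℕ →* G) : Subgroup G := ((HX X0).comap ph).map J

lemma mem_HH {J : FreeGroup ℕ →* G} (hJ : Function.Injective J) (w : FreeGroup ℕ) :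
    J w ∈ HH J ↔ ph w ∈ HX X0 := by
  constructor
  · rintro ⟨v, hv, h⟩
    rw [← hJ h]; exact hv
  · intro h; exact ⟨w, h, rfl⟩

lemma six_J (J : FreeGroup ℕ →* G) (k : Fin 6) :
    six (J (FreeGroup.of 0)) (J (FreeGroup.of 1)) (J (FreeGroup.of 2)) k = J (sx k) := by
  fin_cases k <;> simp [sx, Q281.SM.six, six]

lemma sx_PH (J : FreeGroup ℕ →* G) (k : Fin 6) : J (sx k) ∈ PH (HH J) := by
  rintro _ ⟨w, hw, rfl⟩
  refine ⟨sx k * w * (sx k)⁻¹, ?_, by simp⟩
  change ph (sx k * w * (sx k)⁻¹) ∈ HX X0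
  rw [map_mul, map_mul, map_inv, ph_sx]
  exact Q281.SM.wk_mem_PH (Q281.SM.six_X0 k) _ hw

/-- the monoid of compressing elements -/
def PP (J : FreeGroup ℕ →* G) : Submonoid (PH (HH J)) :=
  Submonoid.closure (Set.range fun k : Fin 6 => (⟨J (sx k), sx_PH J k⟩ : PH (HH J)))

theorem not_sofic_J {J : FreeGroup ℕ →* G} (hJ : Function.Injective J) :
    ¬ IsSofic (NMon (HH J) (PP J)) := by
  refine not_sofic (J (FreeGroup.of 0)) (J (FreeGroup.of 1)) (J (FreeGroup.of 2))
    (fun i => J (ga i)) ?_ ?_ ?_ ?_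
  · intro i
    rw [mem_HH hJ, ph_ga]
    exact Q281.SM.lamp_mem (Q281.SM.gc_pow_mem i)
  · intro k
    rw [six_J]
    exact sx_PH J k
  · intro k
    refine Submonoid.subset_closure ⟨k, Subtype.ext ?_⟩
    exact (six_J J k).symm
  · intro k i j hij
    rw [six_J]
    have e : (J (sx k))⁻¹ * (J (ga i) * (J (ga j))⁻¹) * J (sx k) =
        J ((sx k)⁻¹ * (ga i * (ga j)⁻¹) * sx k) := by simp
    rw [e, mem_HH hJ]
    simp only [map_mul, map_inv, ph_sx, ph_ga]
    exact Q281.SM.lamp_not_mem (Q281.SM.gc_pow_ne hij) (Q281.SM.six_not_mem k i)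

/-- a free group is sofic -/
theorem sofic_free (α : Type) : IsSofic (FreeGroup α) := by
  intro K ε hε
  obtain ⟨Q, iG, iF, f, hf⟩ := exists_injOn K
  refine ⟨Q, iF, ⟨1⟩, fun a x => f a * x, ⟨fun x => by simp, fun s hs t ht => ?_,
    fun s hs t ht hst => ?_⟩⟩
  · exact card_all hε (fun x => by rw [map_mul, mul_assoc])
  · exact card_all hε (fun x hx => hst (hf hs ht (mul_right_cancel hx)))

end KS82.SM
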