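import Pool.Agent.KS6_82.SM.C

/-!
# Doubling: a monoid that contains a given monoid and its opposite and has the same units
-/

universe u

namespace KS82.SM

open MulOpposite
open Q281.SM (IsSofic JOne IsAction)

lemma sofic_of_injective {M N : Type u} [Monoid M] [Monoid N] (e : M →* N)
    (he : Function.Injective e) (h : IsSofic N) : IsSofic M := by
  classical
  intro K ε hε
  obtain ⟨X, iF, iN, f, hf⟩ := h (K.image e) ε hε
  refine ⟨X, iF, iN, fun n => f (e n), ⟨fun x => ?_, fun s hs t ht => ?_,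
    fun s hs t ht hst => ?_⟩⟩
  · rw [map_one]; exact hf.one x
  · have := hf.mul (e s) (Finset.mem_image_of_mem _ hs) (e t)
      (Finset.mem_image_of_mem _ ht)
    simpa only [map_mul] using this
  · exact hf.ne (e s) (Finset.mem_image_of_mem _ hs) (e t)
      (Finset.mem_image_of_mem _ ht) (fun h => hst (he h))

variable {M : Type u} [Monoid M]

/-- `z` is a zero of `M` and the non-units are an ideal -/
structure Zr (z : M) : Prop where
  l : ∀ a, z * a = z
  r : ∀ a, a * z = z
  n : ¬ IsUnit z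
  i : ∀ a b : M, IsUnit (a * b) → IsUnit a ∧ IsUnit b

/-- The submonoid of `M × Mᵐᵒᵖ` of the pairs `(u, u⁻¹)`, `(a, 0)` and `(0, a)` with `u` a unit and
`a` not a unit. -/
def Db {z : M} (h : Zr z) : Submonoid (M × Mᵐᵒᵖ) where
  carrier := {x | (∃ v : Mˣ, x = ((v : M), op ((v⁻¹ : Mˣ) : M))) ∨ (¬ IsUnit x.1 ∧ x.2 = op z) ∨
    (x.1 = z ∧ ¬ IsUnit x.2.unop)}
  one_mem' := Or.inl ⟨1, by simp; rfl⟩
  mul_mem' := by
    rintro ⟨a, b⟩ ⟨c, d⟩ h1 h2
    rcases h1 with ⟨v, hv⟩ | ⟨h1, h1'⟩ | ⟨h1, h1'⟩
    · obtain ⟨rfl, rfl⟩ := Prod.mk.inj hv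
      rcases h2 with ⟨w, hw⟩ | ⟨h2, h2'⟩ | ⟨h2, h2'⟩
      · obtain ⟨rfl, rfl⟩ := Prod.mk.inj hw
        left
        refine ⟨v * w, ?_⟩
        rw [Prod.mk_mul_mk, ← op_mul, mul_inv_rev, Units.val_mul, Units.val_mul]
      · right; left
        simp only at h2 h2' ⊢
        subst h2'
        refine ⟨fun hc => h2 (h.i _ _ hc).2, ?_⟩
        simp only [Prod.mk_mul_mk, ← op_mul, h.l]
      · right; right
        simp only at h2 h2' ⊢
        subst h2
        refine ⟨h.r _, fun hc => h2' (h.i _ _ hc).1⟩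
    · simp only at h1 h1'
      subst h1'
      right; left
      refine ⟨fun hc => h1 (h.i _ _ hc).1, ?_⟩
      have : op z * d = op (d.unop * z) := rfl
      simp only [Prod.mk_mul_mk, this, h.r]
    · simp only at h1 h1'
      subst h1
      right; right
      refine ⟨h.l _, fun hc => h1' (h.i _ _ hc).2⟩

variable {z : M} (h : Zr z)

lemma unit_mul {a b : M} (ha : IsUnit a) (hb : IsUnit b) :
    (ha.mul hb).unit = ha.unit * hb.unit := Units.ext rfl

open Classical in
/-- the first embedding -/
noncomputable def e1 : M →* Db h where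
  toFun m := if hm : IsUnit m then ⟨(m, op ((hm.unit⁻¹ : Mˣ) : M)), Or.inl ⟨hm.unit, rfl⟩⟩
    else ⟨(m, op z), Or.inr (Or.inl ⟨hm, rfl⟩)⟩
  map_one' := by
    rw [dif_pos isUnit_one]
    apply Subtype.ext
    simp
  map_mul' a b := by
    by_cases ha : IsUnit a
    · by_cases hb : IsUnit b
      · rw [dif_pos ha, dif_pos hb, dif_pos (ha.mul hb)]
        apply Subtype.ext
        refine Prod.ext rfl ?_
        change op _ = op _ * op _
        rw [← op_mul, unit_mul, mul_inv_rev, Units.val_mul]
      · rw [dif_pos ha, dif_neg hb, dif_neg (fun hc => hb (h.i _ _ hc).2)]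
        apply Subtype.ext
        refine Prod.ext rfl ?_
        change op _ = op _ * op _
        rw [← op_mul, h.l]
    · rw [dif_neg ha, dif_neg (fun hc => ha (h.i _ _ hc).1)]
      apply Subtype.ext
      refine Prod.ext ?_ ?_
      · by_cases hb : IsUnit b
        · rw [dif_pos hb]; rfl
        · rw [dif_neg hb]; rfl
      · by_cases hb : IsUnit b
        · rw [dif_pos hb]
          change op _ = op _ * op _
          rw [← op_mul, h.r]
        · rw [dif_neg hb]
          change op _ = op _ * op _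
          rw [← op_mul, h.r]

open Classical in
lemma e1_fst (m : M) : (e1 h m).1.1 = m := by
  simp only [e1, MonoidHom.coe_mk, OneHom.coe_mk]
  split_ifs <;> rfl

lemma e1_inj : Function.Injective (e1 h) := by
  intro a b hab
  rw [← e1_fst h a, ← e1_fst h b, hab]

open Classical in
/-- the second embedding -/
noncomputable def e2f (m : M) : Db h := if hm : IsUnit m then
    ⟨(((hm.unit⁻¹ : Mˣ) : M), op m), Or.inl ⟨hm.unit⁻¹, Prod.ext rfl (congrArg op (by
      rw [inv_inv]; exact hm.unit_spec.symm))⟩⟩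
    else ⟨(z, op m), Or.inr (Or.inr ⟨rfl, hm⟩)⟩

open Classical in
/-- the second embedding -/
noncomputable def e2 : M →* (Db h)ᵐᵒᵖ where
  toFun m := op (e2f h m)
  map_one' := by
    apply unop_injective
    rw [unop_op, e2f, dif_pos isUnit_one]
    apply Subtype.ext
    simp
  map_mul' a b := by
    apply unop_injective
    rw [unop_mul, unop_op, unop_op, unop_op]
    unfold e2f
    by_cases ha : IsUnit a
    · by_cases hb : IsUnit b
      · rw [dif_pos ha, dif_pos hb, dif_pos (ha.mul hb)]
        apply Subtype.ext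
        refine Prod.ext ?_ rfl
        change (((ha.mul hb).unit⁻¹ : Mˣ) : M) = ((hb.unit⁻¹ : Mˣ) : M) * ((ha.unit⁻¹ : Mˣ) : M)
        rw [unit_mul, mul_inv_rev, Units.val_mul]
      · rw [dif_pos ha, dif_neg hb, dif_neg (fun hc => hb (h.i _ _ hc).2)]
        apply Subtype.ext
        refine Prod.ext ?_ rfl
        change _ = _ * _
        rw [h.l]
    · rw [dif_neg ha, dif_neg (fun hc => ha (h.i _ _ hc).1)]
      apply Subtype.ext
      refine Prod.ext ?_ ?_
      · by_cases hb : IsUnit b
        · rw [dif_pos hb]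
          change _ = _ * _
          rw [h.r]
        · rw [dif_neg hb]
          change _ = _ * _
          rw [h.r]
      · by_cases hb : IsUnit b
        · rw [dif_pos hb]; rfl
        · rw [dif_neg hb]; rfl

open Classical in
lemma e2_snd (m : M) : (e2 h m).unop.1.2 = op m := by
  simp only [e2, e2f, MonoidHom.coe_mk, OneHom.coe_mk, unop_op]
  split_ifs <;> rfl

lemma e2_inj : Function.Injective (e2 h) := by
  intro a b hab
  apply op_injective
  rw [← e2_snd h a, ← e2_snd h b, hab]

open Classical in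
lemma mem_cases (x : Db h) : (∃ m, e1 h m = x) ∨ ∃ m, (e2 h m).unop = x := by
  obtain ⟨⟨a, b⟩, h1 | ⟨h1, h2⟩ | ⟨h1, h2⟩⟩ := x
  · obtain ⟨v, hv⟩ := h1
    left
    refine ⟨v, ?_⟩
    apply Subtype.ext
    simp only [e1, MonoidHom.coe_mk, OneHom.coe_mk]
    rw [dif_pos v.isUnit, hv]
    simp
  · left
    refine ⟨a, ?_⟩
    apply Subtype.ext
    simp only [e1, MonoidHom.coe_mk, OneHom.coe_mk]
    rw [dif_neg h1, show b = op z from h2]
  · right
    refine ⟨b.unop, ?_⟩
    apply Subtype.ext
    simp only [e2, e2f, MonoidHom.coe_mk, OneHom.coe_mk, unop_op]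
    rw [dif_neg h2]
    exact Prod.ext h1.symm rfl

/-- an element of the double whose first coordinate is a unit -/
lemma of_isUnit_fst (x : Db h) (hx : IsUnit x.1.1) : e1 h x.1.1 = x := by
  rcases mem_cases h x with ⟨m, rfl⟩ | ⟨m, rfl⟩
  · rw [e1_fst]
  · classical
    by_cases hm : IsUnit m
    · apply Subtype.ext
      have e : (e2 h m).unop.1 = (((hm.unit⁻¹ : Mˣ) : M), op m) := by
        simp only [e2, e2f, MonoidHom.coe_mk, OneHom.coe_mk, unop_op]
        rw [dif_pos hm]
      rw [e]
      simp only [e1, MonoidHom.coe_mk, OneHom.coe_mk]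
      rw [dif_pos (Units.isUnit _)]
      simp
    · exfalso
      have e : (e2 h m).unop.1 = (z, op m) := by
        simp only [e2, e2f, MonoidHom.coe_mk, OneHom.coe_mk, unop_op]
        rw [dif_neg hm]
      rw [e] at hx
      exact h.n hx

/-- the first projection -/
def pr1 : Db h →* M := (MonoidHom.fst M Mᵐᵒᵖ).comp (Db h).subtype

lemma isUnit_db (x : Db h) : IsUnit x ↔ IsUnit x.1.1 := by
  constructor
  · intro hx; exact hx.map (pr1 h)
  · intro hx
    rw [← of_isUnit_fst h x hx]
    exact hx.map (e1 h)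

/-- the units of the double -/
noncomputable def dUnits : Mˣ ≃* (Db h)ˣ :=
  MulEquiv.ofBijective (Units.map (e1 h)) ⟨fun a b hab => Units.ext (e1_inj h (congrArg Units.val hab)),
    fun v => ⟨Units.map (pr1 h) v, Units.ext (by
      change e1 h ((v : Db h).1.1) = _
      exact of_isUnit_fst h _ ((isUnit_db h _).1 v.isUnit))⟩⟩

lemma jOne_db : JOne (Db h) = {m | IsUnit m} := by
  ext x
  constructor
  · intro hx
    obtain ⟨a, b, hab⟩ := hx 1
    change IsUnit x
    rw [isUnit_db]
    have h1 := congrArg (pr1 h) hab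
    rw [map_mul, map_mul, map_one] at h1
    have h2 : IsUnit (pr1 h a * pr1 h x * pr1 h b) := by rw [h1]; exact isUnit_one
    exact (h.i _ _ (h.i _ _ h2).1).2
  · rintro ⟨v, rfl⟩ y
    exact ⟨y * ((v⁻¹ : (Db h)ˣ) : Db h), 1, by simp⟩

lemma closure_db (S : Set M) (hS : Submonoid.closure ({m | IsUnit m} ∪ S) = ⊤) :
    Submonoid.closure ({m : Db h | IsUnit m} ∪ ((e1 h) '' S ∪ (fun m => (e2 h m).unop) '' S)) = ⊤ := by
  set C := Submonoid.closure ({m : Db h | IsUnit m} ∪ ((e1 h) '' S ∪ (fun m => (e2 h m).unop) '' S))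
    with hC
  have k1 : ∀ m, e1 h m ∈ C := by
    intro m
    have hm : m ∈ Submonoid.closure ({m | IsUnit m} ∪ S) := by rw [hS]; trivial
    induction hm using Submonoid.closure_induction with
    | mem x hx =>
      rcases hx with hx | hx
      · exact Submonoid.subset_closure (Or.inl (IsUnit.map (e1 h) hx))
      · exact Submonoid.subset_closure (Or.inr (Or.inl ⟨x, hx, rfl⟩))
    | one => rw [map_one]; exact one_mem _
    | mul x y _ _ hx hy => rw [map_mul]; exact mul_mem hx hy
  have k2 : ∀ m, (e2 h m).unop ∈ C := by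
    intro m
    have hm : m ∈ Submonoid.closure ({m | IsUnit m} ∪ S) := by rw [hS]; trivial
    induction hm using Submonoid.closure_induction with
    | mem x hx =>
      rcases hx with hx | hx
      · refine Submonoid.subset_closure (Or.inl ?_)
        have := IsUnit.map (e2 h) hx
        exact IsUnit.unop this
      · exact Submonoid.subset_closure (Or.inr (Or.inr ⟨x, hx, rfl⟩))
    | one => rw [map_one]; exact one_mem _
    | mul x y _ _ hx hy => rw [map_mul, unop_mul]; exact mul_mem hy hx
  rw [eq_top_iff]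
  rintro x -
  rcases mem_cases h x with ⟨m, rfl⟩ | ⟨m, rfl⟩
  · exact k1 m
  · exact k2 m

lemma fg_of (S : Set M) (hSf : S.Finite) (hS : Submonoid.closure ({m | IsUnit m} ∪ S) = ⊤)
    (hG : Group.FG Mˣ) : Monoid.FG M := by
  have hM : Monoid.FG Mˣ := Group.fg_iff_monoid_fg.1 hG
  obtain ⟨T, hT, hTf⟩ := (Submonoid.fg_iff _).1 hM.1
  refine ⟨(Submonoid.fg_iff _).2 ⟨(Units.val '' T) ∪ S, ?_, (hTf.image _).union hSf⟩⟩
  rw [← top_le_iff, ← hS, Submonoid.closure_le]
  rintro x (hx | hx)
  · obtain ⟨v, rfl⟩ := hx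
    have hv : v ∈ Submonoid.closure T := by rw [hT]; trivial
    induction hv using Submonoid.closure_induction with
    | mem x hx => exact Submonoid.subset_closure (Or.inl ⟨x, hx, rfl⟩)
    | one => rw [Units.val_one]; exact one_mem _
    | mul x y _ _ hx hy => rw [Units.val_mul]; exact mul_mem hx hy
  · exact Submonoid.subset_closure (Or.inr hx)

end KS82.SM
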